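import Mathlib

/-!
# Components of the support of a harmonic function on `r`-sets

Let `F` be a function on the `r`-subsets of a finite set `E` whose sums `∑ a ∉ C, F (C ∪ {a})`
vanish. A component of the support of `F` in the graph of single exchanges reaches the other side.
-/

set_option autoImplicit false

namespace Pool.Agent.H11SW

open Finset

variable {E : Type*} [Fintype E] [DecidableEq E] {K : Type*} [Field K]

/-- Level sums vanish if the lowest one does. -/
theorem exists_low (S X : Finset E) (hXS : X ⊆ S) (G : Finset E → K)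
    (hK : ∀ m : ℕ, 0 < m → m ≤ (S \ X).card → (m : K) ≠ 0)
    (hG0 : ∀ A, G A ≠ 0 → X ⊆ A ∧ A.card = S.card)
    (hG : ∀ C, X ⊆ C → C.card + 1 = S.card → ∑ a ∈ Cᶜ, G (insert a C) = 0)
    (hS : G S ≠ 0) : ∃ A, A ∩ (S \ X) = ∅ ∧ G A ≠ 0 := by
  by_contra hcon
  push Not at hcon
  set D := S \ X with hD
  let σ : ℕ → K := fun l => ∑ A ∈ univ.filter (fun A : Finset E => (A ∩ D).card = l), G A
  have hcard : D.card + X.card = S.card := by
    rw [hD, Finset.card_sdiff_of_subset hXS]
    have := Finset.card_le_card hXS
    omega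
  -- the recursion
  have rec_ : ∀ l, l < D.card → ((l + 1 : ℕ) : K) * σ (l + 1) + ((D.card - l : ℕ) : K) * σ l = 0 := by
    intro l hl
    have h1 : ∑ C ∈ univ.filter (fun C : Finset E => X ⊆ C ∧ C.card + 1 = S.card ∧
        (C ∩ D).card = l), ∑ a ∈ Cᶜ, G (insert a C) = 0 := by
      refine Finset.sum_eq_zero fun C hC => ?_
      simp only [mem_filter, mem_univ, true_and] at hC
      exact hG C hC.1 hC.2.1
    have h2 : ∀ C : Finset E, ∑ a ∈ Cᶜ, G (insert a C) =
        ∑ a ∈ Cᶜ.filter (fun a => a ∈ D), G (insert a C) +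
        ∑ a ∈ Cᶜ.filter (fun a => a ∉ D), G (insert a C) := fun C =>
      (Finset.sum_filter_add_sum_filter_not _ _ _).symm
    rw [Finset.sum_congr rfl fun C _ => h2 C, Finset.sum_add_distrib] at h1
    have e1 : ∑ C ∈ univ.filter (fun C : Finset E => X ⊆ C ∧ C.card + 1 = S.card ∧
        (C ∩ D).card = l), ∑ a ∈ Cᶜ.filter (fun a => a ∈ D), G (insert a C) =
        ((l + 1 : ℕ) : K) * σ (l + 1) := by
      have f1 : ((l + 1 : ℕ) : K) * σ (l + 1) =
          ∑ A ∈ univ.filter (fun A : Finset E => X ⊆ A ∧ A.card = S.card ∧ (A ∩ D).card = l + 1),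
            ∑ a ∈ A.filter (fun a => a ∈ D), G A := by
        have g1 : σ (l + 1) = ∑ A ∈ univ.filter (fun A : Finset E => X ⊆ A ∧ A.card = S.card ∧
            (A ∩ D).card = l + 1), G A := by
          symm
          refine Finset.sum_subset ?_ ?_
          · intro A hA
            simp only [mem_filter, mem_univ, true_and] at hA ⊢
            exact hA.2.2
          · intro A hA hA'
            simp only [mem_filter, mem_univ, true_and] at hA hA'
            by_contra hc
            exact hA' ⟨(hG0 A hc).1, (hG0 A hc).2, hA⟩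
        rw [g1, Finset.mul_sum]
        refine Finset.sum_congr rfl fun A hA => ?_
        simp only [mem_filter, mem_univ, true_and] at hA
        rw [Finset.sum_const, Finset.filter_mem_eq_inter, hA.2.2, nsmul_eq_mul]
      rw [f1, Finset.sum_sigma', Finset.sum_sigma']
      refine Finset.sum_bij' (fun p _ => ⟨insert p.2 p.1, p.2⟩) (fun p _ => ⟨p.1.erase p.2, p.2⟩)
        ?_ ?_ ?_ ?_ ?_
      · rintro ⟨C, a⟩ hp
        simp only [mem_sigma, mem_filter, mem_univ, true_and, mem_compl] at hp ⊢
        obtain ⟨⟨hX, hc, hl'⟩, ha, haD⟩ := hp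
        refine ⟨⟨hX.trans (subset_insert _ _), ?_, ?_⟩, mem_insert_self _ _, haD⟩
        · rw [card_insert_of_notMem ha, hc]
        · rw [insert_inter_of_mem haD, card_insert_of_notMem, hl']
          exact fun h => ha (mem_inter.1 h).1
      · rintro ⟨A, a⟩ hp
        simp only [mem_sigma, mem_filter, mem_univ, true_and, mem_compl] at hp ⊢
        obtain ⟨⟨hX, hc, hl'⟩, ha, haD⟩ := hp
        have haX : a ∉ X := (mem_sdiff.1 (hD ▸ haD)).2
        refine ⟨⟨subset_erase.2 ⟨hX, haX⟩, ?_, ?_⟩, notMem_erase _ _, haD⟩
        · rw [card_erase_add_one ha, hc]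
        · rw [erase_inter, card_erase_of_mem (mem_inter.2 ⟨ha, haD⟩), hl']
          rfl
      · rintro ⟨C, a⟩ hp
        simp only [mem_sigma, mem_filter, mem_univ, true_and, mem_compl] at hp
        simp only [erase_insert hp.2.1]
      · rintro ⟨A, a⟩ hp
        simp only [mem_sigma, mem_filter, mem_univ, true_and] at hp
        simp only [insert_erase hp.2.1]
      · rintro ⟨C, a⟩ hp
        rfl
    have e2 : ∑ C ∈ univ.filter (fun C : Finset E => X ⊆ C ∧ C.card + 1 = S.card ∧
        (C ∩ D).card = l), ∑ a ∈ Cᶜ.filter (fun a => a ∉ D), G (insert a C) =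
        ((D.card - l : ℕ) : K) * σ l := by
      have f1 : ((D.card - l : ℕ) : K) * σ l =
          ∑ A ∈ univ.filter (fun A : Finset E => X ⊆ A ∧ A.card = S.card ∧ (A ∩ D).card = l),
            ∑ a ∈ A.filter (fun a => a ∉ S), G A := by
        have g1 : σ l = ∑ A ∈ univ.filter (fun A : Finset E => X ⊆ A ∧ A.card = S.card ∧
            (A ∩ D).card = l), G A := by
          symm
          refine Finset.sum_subset ?_ ?_
          · intro A hA
            simp only [mem_filter, mem_univ, true_and] at hA ⊢
            exact hA.2.2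
          · intro A hA hA'
            simp only [mem_filter, mem_univ, true_and] at hA hA'
            by_contra hc
            exact hA' ⟨(hG0 A hc).1, (hG0 A hc).2, hA⟩
        rw [g1, Finset.mul_sum]
        refine Finset.sum_congr rfl fun A hA => ?_
        simp only [mem_filter, mem_univ, true_and] at hA
        rw [Finset.sum_const, nsmul_eq_mul]
        congr 2
        have k1 : (A.filter fun a => a ∈ S).card + (A.filter fun a => a ∉ S).card = A.card :=
          Finset.card_filter_add_card_filter_not _
        have k2 : (A.filter fun a => a ∈ S) = (A ∩ D) ∪ X := by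
          ext a
          simp only [mem_filter, mem_union, mem_inter, hD, mem_sdiff]
          constructor
          · rintro ⟨h1, h2⟩
            by_cases h3 : a ∈ X
            · exact Or.inr h3
            · exact Or.inl ⟨h1, h2, h3⟩
          · rintro (⟨h1, h2, h3⟩ | h)
            · exact ⟨h1, h2⟩
            · exact ⟨hA.1 h, hXS h⟩
        have k3 : ((A ∩ D) ∪ X).card = l + X.card := by
          rw [card_union_of_disjoint, hA.2.2]
          refine Finset.disjoint_left.2 fun a ha haX => ?_
          exact (mem_sdiff.1 (hD ▸ (mem_inter.1 ha).2)).2 haX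
        rw [k2, k3] at k1
        omega
      rw [f1, Finset.sum_sigma', Finset.sum_sigma']
      refine Finset.sum_bij' (fun p _ => ⟨insert p.2 p.1, p.2⟩) (fun p _ => ⟨p.1.erase p.2, p.2⟩)
        ?_ ?_ ?_ ?_ ?_
      · rintro ⟨C, a⟩ hp
        simp only [mem_sigma, mem_filter, mem_univ, true_and, mem_compl] at hp ⊢
        obtain ⟨⟨hX, hc, hl'⟩, ha, haD⟩ := hp
        refine ⟨⟨hX.trans (subset_insert _ _), ?_, ?_⟩, mem_insert_self _ _, ?_⟩
        · rw [card_insert_of_notMem ha, hc]
        · rw [insert_inter_of_notMem haD, hl']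
        · intro haS
          exact haD (by rw [hD]; exact mem_sdiff.2 ⟨haS, fun h => ha (hX h)⟩)
      · rintro ⟨A, a⟩ hp
        simp only [mem_sigma, mem_filter, mem_univ, true_and, mem_compl] at hp ⊢
        obtain ⟨⟨hX, hc, hl'⟩, ha, haS⟩ := hp
        have haX : a ∉ X := fun h => haS (hXS h)
        have haD : a ∉ D := fun h => haS (mem_sdiff.1 (hD ▸ h)).1
        refine ⟨⟨subset_erase.2 ⟨hX, haX⟩, ?_, ?_⟩, notMem_erase _ _, haD⟩
        · rw [card_erase_add_one ha, hc]
        · rw [erase_inter, erase_eq_of_notMem (fun h => haD (mem_inter.1 h).2), hl']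
      · rintro ⟨C, a⟩ hp
        simp only [mem_sigma, mem_filter, mem_univ, true_and, mem_compl] at hp
        simp only [erase_insert hp.2.1]
      · rintro ⟨A, a⟩ hp
        simp only [mem_sigma, mem_filter, mem_univ, true_and] at hp
        simp only [insert_erase hp.2.1]
      · rintro ⟨C, a⟩ hp
        rfl
    rw [e1, e2] at h1
    exact h1
  have zero : ∀ l, l ≤ D.card → σ l = 0 := by
    intro l
    induction l with
    | zero =>
      intro _
      refine Finset.sum_eq_zero fun A hA => ?_
      simp only [mem_filter, mem_univ, true_and] at hA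
      exact hcon A (card_eq_zero.1 hA)
    | succ l ih =>
      intro hl
      have h1 := rec_ l (by omega)
      rw [ih (by omega), mul_zero, add_zero] at h1
      rcases mul_eq_zero.1 h1 with h2 | h2
      · exact absurd h2 (hK (l + 1) (by omega) hl)
      · exact h2
  apply hS
  have h1 := zero D.card le_rfl
  have h2 : σ D.card = G S := by
    refine Finset.sum_eq_single S ?_ ?_
    · intro A hA hAS
      simp only [mem_filter, mem_univ, true_and] at hA
      by_contra hc
      obtain ⟨h3, h4⟩ := hG0 A hc
      have h5 : A ∩ D = D := Finset.eq_of_subset_of_card_le inter_subset_right hA.ge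
      have h6 : S ⊆ A := by
        intro a ha
        by_cases h7 : a ∈ X
        · exact h3 h7
        · have : a ∈ D := by rw [hD]; exact mem_sdiff.2 ⟨ha, h7⟩
          rw [← h5] at this
          exact (mem_inter.1 this).1
      exact hAS (Finset.eq_of_subset_of_card_le h6 h4.le).symm
    · intro h
      exfalso
      apply h
      simp only [mem_filter, mem_univ, true_and]
      congr 1
      rw [hD]
      exact inter_eq_right.2 sdiff_subset
  rw [← h2, h1]

/-- One exchange inside the support of `F`, keeping `X`. -/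
def Step (F : Finset E → K) (X A A' : Finset E) : Prop :=
  ∃ a ∈ A, ∃ c, c ∉ A ∧ a ∉ X ∧ A' = insert c (A.erase a) ∧ F A' ≠ 0

/-- **Main point.** If `F` is harmonic and `F S ≠ 0`, `X ⊆ S`, there is a sequence of exchanges
inside the support of `F`, which keeps `X`, to a set `A` with `A ∩ S = X`. -/
theorem exists_path (S X : Finset E) (hXS : X ⊆ S) (F : Finset E → K)
    (hK : ∀ m : ℕ, 0 < m → m ≤ (S \ X).card → (m : K) ≠ 0)
    (hF : ∀ C, C.card + 1 = S.card → ∑ a ∈ Cᶜ, F (insert a C) = 0)
    (hS : F S ≠ 0) : ∃ A, A ∩ S = X ∧ Relation.ReflTransGen (Step F X) S A := by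
  classical
  let U : Finset E → Prop := fun A => Relation.ReflTransGen (Step F X) S A
  have hU : ∀ A, U A → F A ≠ 0 ∧ X ⊆ A ∧ A.card = S.card := by
    intro A hA
    induction hA with
    | refl => exact ⟨hS, hXS, rfl⟩
    | tail _ h ih =>
      obtain ⟨a, ha, c, hc, haX, rfl, hF'⟩ := h
      refine ⟨hF', ?_, ?_⟩
      · exact (subset_erase.2 ⟨ih.2.1, haX⟩).trans (subset_insert _ _)
      · rw [card_insert_of_notMem (fun h => hc (mem_of_mem_erase h)), card_erase_add_one ha,
          ih.2.2]
  let G : Finset E → K := fun A => if U A then F A else 0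
  have hGS : G S ≠ 0 := by
    change (if U S then F S else 0) ≠ 0
    rw [if_pos Relation.ReflTransGen.refl]
    exact hS
  obtain ⟨A, hA1, hA2⟩ := exists_low S X hXS G hK (fun A hA => by
      have h1 : U A := by
        by_contra hc
        exact hA (if_neg hc)
      exact (hU A h1).2)
    (fun C hXC hC => by
      by_cases h : ∃ a, a ∉ C ∧ U (insert a C)
      · obtain ⟨a, ha, hUa⟩ := h
        rw [← hF C hC]
        refine Finset.sum_congr rfl fun c hc => ?_
        rw [mem_compl] at hc
        by_cases h0 : F (insert c C) = 0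
        · change (if U (insert c C) then F (insert c C) else 0) = _
          rw [h0, ite_self]
        · refine if_pos ?_
          rcases eq_or_ne c a with rfl | hca
          · exact hUa
          · refine Relation.ReflTransGen.tail hUa ⟨a, mem_insert_self _ _, c, ?_, ?_, ?_, h0⟩
            · simp [hca, hc]
            · exact fun h => ha (hXC h)
            · rw [erase_insert ha]
      · push Not at h
        refine Finset.sum_eq_zero fun c hc => ?_
        rw [mem_compl] at hc
        exact if_neg (h c hc)) hGS
  have hUA : U A := by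
    by_contra hc
    exact hA2 (if_neg hc)
  refine ⟨A, ?_, hUA⟩
  ext a
  constructor
  · intro ha
    by_contra hc
    have : a ∈ A ∩ (S \ X) :=
      mem_inter.2 ⟨(mem_inter.1 ha).1, mem_sdiff.2 ⟨(mem_inter.1 ha).2, hc⟩⟩
    rw [hA1] at this
    exact notMem_empty a this
  · intro ha
    exact mem_inter.2 ⟨(hU A hUA).2.1 ha, hXS ha⟩

end Pool.Agent.H11SW
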