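import Pool.Agent.H11SW.Harm
import Pool.Agent.H68Rg.OfRG

/-!
# Symmetric exchanges between pairs of bases of a represented matroid
-/

set_option autoImplicit false

namespace Pool.Agent.H11SW

open Finset

/-- The pair `Q` arises from the pair `P` by a symmetric exchange of one element of each set, and
`Q` is a pair of bases. -/
def SymExchange {α : Type*} (M : Matroid α) (P Q : Set α × Set α) : Prop :=
  (∃ x ∈ P.1, ∃ y ∈ P.2, Q.1 = insert y (P.1 \ {x}) ∧ Q.2 = insert x (P.2 \ {y})) ∧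
    M.IsBase Q.1 ∧ M.IsBase Q.2

/-- Two bases of a represented matroid give vectors in `K ^ r`. -/
theorem exists_vectors {α K V : Type*} [Field K] [AddCommGroup V] [Module K V]
    (M : Matroid α) (φ : α → V) (hφ : ∀ X ⊆ M.E, M.Indep X ↔ LinearIndepOn K φ X) {r : ℕ}
    (b b' : Fin r → α) (hb : Function.Injective b) (hb' : Function.Injective b')
    (hB : M.IsBase (Set.range b)) (hB' : M.IsBase (Set.range b')) :
    ∃ E : Fin r ⊕ Fin r → Fin r → K,
      (∀ A : Finset (Fin r ⊕ Fin r), A.card = r → LinearIndepOn K E (A : Set (Fin r ⊕ Fin r)) →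
        M.IsBase (Sum.elim b b' '' (A : Set (Fin r ⊕ Fin r))) ∧
        Set.InjOn (Sum.elim b b') (A : Set (Fin r ⊕ Fin r))) ∧
      (LinearIndependent K fun i : Fin r => E (Sum.inl i)) ∧
      (LinearIndependent K fun i : Fin r => E (Sum.inr i)) := by
  set g : Fin r ⊕ Fin r → α := Sum.elim b b' with hg
  have hgE : ∀ a, g a ∈ M.E := by
    rintro (i | i)
    · exact hB.subset_ground ⟨i, rfl⟩
    · exact hB'.subset_ground ⟨i, rfl⟩
  have l1 : LinearIndependent K (φ ∘ b) :=
    (linearIndepOn_range_iff hb φ).1 ((hφ _ hB.subset_ground).1 hB.indep)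
  have l2 : LinearIndependent K (φ ∘ b') :=
    (linearIndepOn_range_iff hb' φ).1 ((hφ _ hB'.subset_ground).1 hB'.indep)
  have hsp : ∀ a, φ (g a) ∈ Submodule.span K (Set.range (φ ∘ b)) := by
    intro a
    by_cases ha : g a ∈ Set.range b
    · obtain ⟨i, hi⟩ := ha
      rw [← hi]
      exact Submodule.subset_span ⟨i, rfl⟩
    · by_contra hc
      have h3 : ¬ M.Indep (insert (g a) (Set.range b)) := by
        intro h4
        have h5 := hB.eq_of_subset_indep h4 (Set.subset_insert _ _)
        exact ha (h5 ▸ Set.mem_insert _ _)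
      apply h3
      rw [hφ _ (Set.insert_subset (hgE a) hB.subset_ground)]
      have h4 := (hφ _ hB.subset_ground).1 hB.indep
      refine h4.insert ?_
      rwa [← Set.range_comp]
  let β := Module.Basis.span l1
  let E : Fin r ⊕ Fin r → Fin r → K := fun a => β.equivFun ⟨φ (g a), hsp a⟩
  have key : ∀ A : Set (Fin r ⊕ Fin r), LinearIndepOn K E A → LinearIndepOn K (φ ∘ g) A := by
    intro A hA
    have h3 : LinearIndepOn K (fun a => (⟨φ (g a), hsp a⟩ :
        Submodule.span K (Set.range (φ ∘ b)))) A :=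
      LinearIndependent.of_comp β.equivFun.toLinearMap hA
    exact LinearIndependent.map' h3 (Submodule.subtype _) (Submodule.ker_subtype _)
  refine ⟨E, ?_, ?_, ?_⟩
  · intro A hA hE
    have h3 := key _ hE
    have hinj : Set.InjOn (φ ∘ g) (A : Set (Fin r ⊕ Fin r)) := h3.injOn
    have hinj' : Set.InjOn g (A : Set (Fin r ⊕ Fin r)) := hinj.of_comp
    have h4 : M.Indep (g '' (A : Set (Fin r ⊕ Fin r))) := by
      rw [hφ _ (by rintro _ ⟨a, _, rfl⟩; exact hgE a)]
      exact h3.image_of_comp g φ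
    obtain ⟨D, hD, hAD⟩ := h4.exists_isBase_superset
    have h5 : D.ncard = r := by
      rw [hD.ncard_eq_ncard_of_isBase hB, ← Set.image_univ, hb.injOn.ncard_image, Set.ncard_univ,
        Nat.card_eq_fintype_card, Fintype.card_fin]
    have h6 : (g '' (A : Set (Fin r ⊕ Fin r))).ncard = r := by
      rw [hinj'.ncard_image, Set.ncard_coe_finset, hA]
    have h7 : D.Finite := by
      rw [← Set.encard_lt_top_iff, hD.encard_eq_encard_of_isBase hB, Set.encard_lt_top_iff]
      exact Set.finite_range b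
    have h8 := Set.eq_of_subset_of_ncard_le hAD (by rw [h5, h6]) h7
    rw [h8]
    exact ⟨hD, hinj'⟩
  · have h3 : LinearIndependent K (fun i : Fin r => (⟨φ (g (Sum.inl i)), hsp _⟩ :
        Submodule.span K (Set.range (φ ∘ b)))) :=
      LinearIndependent.of_comp (Submodule.subtype _) l1
    exact h3.map' β.equivFun.toLinearMap β.equivFun.ker
  · have h3 : LinearIndependent K (fun i : Fin r => (⟨φ (g (Sum.inr i)), hsp _⟩ :
        Submodule.span K (Set.range (φ ∘ b)))) :=
      LinearIndependent.of_comp (Submodule.subtype _) l2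
    exact h3.map' β.equivFun.toLinearMap β.equivFun.ker

/-- **Theorem.** -/
theorem swap {α K V : Type*} [Field K] [AddCommGroup V] [Module K V]
    (M : Matroid α) (φ : α → V) (hφ : ∀ X ⊆ M.E, M.Indep X ↔ LinearIndepOn K φ X)
    {B B' : Set α} (hB : M.IsBase B) (hB' : M.IsBase B') (hfin : B.Finite) {X : Set α}
    (hX : X ⊆ B) (hK : ∀ m : ℕ, 0 < m → m + X.ncard ≤ B.ncard → (m : K) ≠ 0) :
    ∃ Y ⊆ B', Y.ncard = X.ncard ∧
      Relation.ReflTransGen (fun P Q => SymExchange M P Q ∧ X ⊆ Q.1) (B, B')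
        (X ∪ (B' \ Y), (B \ X) ∪ Y) := by
  classical
  set r := B.ncard with hr
  have hfin' : B'.Finite := by
    rw [← Set.encard_lt_top_iff, hB'.encard_eq_encard_of_isBase hB, Set.encard_lt_top_iff]
    exact hfin
  have hr' : B'.ncard = r := hB'.ncard_eq_ncard_of_isBase hB
  obtain ⟨b, hb, hbr⟩ : ∃ b : Fin r → α, Function.Injective b ∧ Set.range b = B := by
    have : Finite B := hfin
    let e : Fin r ≃ B := (Finite.equivFinOfCardEq (Nat.card_coe_set_eq B)).symm
    exact ⟨fun i => (e i : α), Subtype.val_injective.comp e.injective, by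
      rw [show (fun i => (e i : α)) = Subtype.val ∘ e from rfl, Set.range_comp, e.range_eq_univ,
        Set.image_univ, Subtype.range_coe]⟩
  obtain ⟨b', hb', hbr'⟩ : ∃ b' : Fin r → α, Function.Injective b' ∧ Set.range b' = B' := by
    have : Finite B' := hfin'
    let e : Fin r ≃ B' := (Finite.equivFinOfCardEq ((Nat.card_coe_set_eq B').trans hr')).symm
    exact ⟨fun i => (e i : α), Subtype.val_injective.comp e.injective, by
      rw [show (fun i => (e i : α)) = Subtype.val ∘ e from rfl, Set.range_comp, e.range_eq_univ,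
        Set.image_univ, Subtype.range_coe]⟩
  obtain ⟨E, hE, h1, h2⟩ := exists_vectors M φ hφ b b' hb hb' (hbr ▸ hB) (hbr' ▸ hB')
  set g : Fin r ⊕ Fin r → α := Sum.elim b b' with hg
  -- the two halves
  let S : Finset (Fin r ⊕ Fin r) := univ.map ⟨Sum.inl, Sum.inl_injective⟩
  have hSc : S.card = r := by simp [S]
  have gS : g '' (S : Set (Fin r ⊕ Fin r)) = B := by
    rw [← hbr]
    ext x
    simp [S, hg]
  have gSc : g '' ((Sᶜ : Finset (Fin r ⊕ Fin r)) : Set (Fin r ⊕ Fin r)) = B' := by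
    rw [← hbr']
    ext x
    simp [S, hg]
  let XS : Finset (Fin r ⊕ Fin r) := S.filter fun a => g a ∈ X
  have hXS : XS ⊆ S := filter_subset _ _
  have hginS : Set.InjOn g (S : Set (Fin r ⊕ Fin r)) := by
    intro a ha c hc hac
    simp only [S, coe_map, Function.Embedding.coeFn_mk, coe_univ, Set.image_univ,
      Set.mem_range] at ha hc
    obtain ⟨i, rfl⟩ := ha
    obtain ⟨j, rfl⟩ := hc
    exact congrArg _ (hb hac)
  have gXS : g '' (XS : Set (Fin r ⊕ Fin r)) = X := by
    ext x
    constructor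
    · rintro ⟨a, ha, rfl⟩
      exact (mem_filter.1 (mem_coe.1 ha)).2
    · intro hx
      have h3 : x ∈ g '' (S : Set (Fin r ⊕ Fin r)) := gS ▸ hX hx
      obtain ⟨a, ha, rfl⟩ := h3
      exact ⟨a, mem_coe.2 (mem_filter.2 ⟨mem_coe.1 ha, hx⟩), rfl⟩
  have hXc : XS.card = X.ncard := by
    rw [← gXS, (hginS.mono (coe_subset.2 hXS)).ncard_image, Set.ncard_coe_finset]
  let F : Finset (Fin r ⊕ Fin r) → K := fun A => (H68Rg.mat E A).det
  obtain ⟨A, hA, hpath⟩ := exists_path S XS hXS F
    (fun m hm hm' => hK m hm (by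
      rw [card_sdiff_of_subset hXS, hSc, hXc] at hm'
      have := card_le_card hXS
      rw [hSc, hXc] at this
      omega))
    (fun C _ => H68Rg.rel E C) (H68Rg.det_first h1 h2)
  -- nonvanishing gives bases
  have hbase : ∀ A, F A ≠ 0 → (M.IsBase (g '' (A : Set (Fin r ⊕ Fin r))) ∧
      Set.InjOn g (A : Set (Fin r ⊕ Fin r))) ∧
      (M.IsBase (g '' ((Aᶜ : Finset (Fin r ⊕ Fin r)) : Set (Fin r ⊕ Fin r))) ∧
      Set.InjOn g ((Aᶜ : Finset (Fin r ⊕ Fin r)) : Set (Fin r ⊕ Fin r))) := by
    intro A hA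
    obtain ⟨h3, h4⟩ := H68Rg.indep_of_det hA
    obtain ⟨h5, h6⟩ := H68Rg.card_of_det hA
    exact ⟨hE A h5 h3, hE Aᶜ h6 h4⟩
  -- transport of the path
  have main : ∀ A, Relation.ReflTransGen (Step F XS) S A → (F A ≠ 0 ∧
      Relation.ReflTransGen (fun P Q => SymExchange M P Q ∧ X ⊆ Q.1) (B, B')
        (g '' (A : Set (Fin r ⊕ Fin r)),
          g '' ((Aᶜ : Finset (Fin r ⊕ Fin r)) : Set (Fin r ⊕ Fin r))) ∧ XS ⊆ A) := by
    intro A hA
    induction hA with
    | refl => exact ⟨H68Rg.det_first h1 h2, by rw [gS, gSc], hXS⟩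
    | @tail A A' _ h ih =>
      obtain ⟨a, ha, c, hc, haX, rfl, hF'⟩ := h
      obtain ⟨ihF, ihp, ihX⟩ := ih
      have hXA : XS ⊆ insert c (A.erase a) := (subset_erase.2 ⟨ihX, haX⟩).trans (subset_insert _ _)
      refine ⟨hF', ihp.tail ⟨⟨⟨g a, ⟨a, ha, rfl⟩, g c, ⟨c, by simpa using hc, rfl⟩, ?_, ?_⟩,
        (hbase _ hF').1.1, (hbase _ hF').2.1⟩, ?_⟩, hXA⟩
      · rw [coe_insert, Set.image_insert_eq, coe_erase]
        have h3 := (hbase _ ihF).1.2
        rw [Set.InjOn.image_sdiff_subset h3 (by simpa using ha), Set.image_singleton]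
      · have e : ((insert c (A.erase a))ᶜ : Finset (Fin r ⊕ Fin r)) = insert a (Aᶜ.erase c) := by
          ext x
          simp only [mem_compl, mem_insert, mem_erase, not_or, not_and_or, not_not]
          constructor
          · rintro ⟨h3, h4 | h4⟩
            · exact Or.inl h4
            · exact Or.inr ⟨h3, h4⟩
          · rintro (h4 | ⟨h3, h4⟩)
            · subst h4
              exact ⟨fun h => hc (h ▸ ha), Or.inl rfl⟩
            · exact ⟨h3, Or.inr h4⟩
        change g '' _ = insert (g a) (g '' ((Aᶜ : Finset (Fin r ⊕ Fin r)) :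
          Set (Fin r ⊕ Fin r)) \ {g c})
        rw [e, coe_insert (a := a), Set.image_insert_eq, coe_erase]
        congr 1
        have h3 := (hbase _ ihF).2.2
        rw [Set.InjOn.image_sdiff_subset h3 (by simpa using hc), Set.image_singleton]
      · change X ⊆ g '' _
        conv_lhs => rw [← gXS]
        exact Set.image_mono (coe_subset.2 hXA)
  obtain ⟨hFA, hp, hXA⟩ := main A hpath
  have hcard := H68Rg.card_of_det hFA
  -- the sets
  let YT : Finset (Fin r ⊕ Fin r) := Aᶜ \ S
  have hY1 : g '' (YT : Set (Fin r ⊕ Fin r)) ⊆ B' := by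
    rw [← gSc]
    refine Set.image_mono ?_
    intro a ha
    simp only [YT, coe_sdiff, coe_compl, Set.mem_sdiff, Set.mem_compl_iff, mem_coe] at ha ⊢
    exact ha.2
  have hYA : YT ⊆ Aᶜ := sdiff_subset
  have hYc : YT.card = XS.card := by
    have k1 : (Aᶜ ∩ S).card + YT.card = Aᶜ.card := card_inter_add_card_sdiff _ _
    have k2 : Aᶜ ∩ S = S \ XS := by
      rw [← hA]
      ext x
      simp only [mem_inter, mem_compl, mem_sdiff]
      tauto
    have k3 := card_le_card hXS
    rw [k2, card_sdiff_of_subset hXS, hcard.2, hSc] at k1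
    rw [hSc] at k3
    omega
  have hinj2 := (hbase A hFA).2.2
  refine ⟨g '' (YT : Set (Fin r ⊕ Fin r)), hY1, ?_, ?_⟩
  · rw [(hinj2.mono (coe_subset.2 hYA)).ncard_image, Set.ncard_coe_finset, hYc, hXc]
  · have hginT : Set.InjOn g ((Sᶜ : Finset (Fin r ⊕ Fin r)) : Set (Fin r ⊕ Fin r)) := by
      intro a ha c hc hac
      rcases a with i | i
      · simp [S] at ha
      · rcases c with j | j
        · simp [S] at hc
        · exact congrArg _ (hb' hac)
    have e1 : g '' (A : Set (Fin r ⊕ Fin r)) = X ∪ (B' \ g '' (YT : Set (Fin r ⊕ Fin r))) := by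
      have k1 : (A : Set (Fin r ⊕ Fin r)) = (XS : Set (Fin r ⊕ Fin r)) ∪
          (((Sᶜ : Finset (Fin r ⊕ Fin r)) : Set (Fin r ⊕ Fin r)) \
            (YT : Set (Fin r ⊕ Fin r))) := by
        rw [← coe_sdiff, ← coe_union]
        congr 1
        ext x
        simp only [YT, mem_union, mem_sdiff, mem_compl, ← hA, mem_inter]
        tauto
      rw [k1, Set.image_union, gXS, Set.InjOn.image_sdiff_subset hginT, gSc]
      intro a ha
      simp only [YT, coe_sdiff, coe_compl, Set.mem_sdiff, Set.mem_compl_iff, mem_coe] at ha ⊢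
      exact ha.2
    have e2 : g '' ((Aᶜ : Finset (Fin r ⊕ Fin r)) : Set (Fin r ⊕ Fin r)) =
        (B \ X) ∪ g '' (YT : Set (Fin r ⊕ Fin r)) := by
      have k1 : ((Aᶜ : Finset (Fin r ⊕ Fin r)) : Set (Fin r ⊕ Fin r)) =
          ((S : Set (Fin r ⊕ Fin r)) \ (XS : Set (Fin r ⊕ Fin r))) ∪
            (YT : Set (Fin r ⊕ Fin r)) := by
        rw [← coe_sdiff, ← coe_union]
        congr 1
        ext x
        simp only [YT, mem_union, mem_sdiff, mem_compl, ← hA, mem_inter]
        tauto
      rw [k1, Set.image_union, Set.InjOn.image_sdiff_subset hginS (coe_subset.2 hXS), gS, gXS]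
    rw [← e1, ← e2]
    exact hp

end Pool.Agent.H11SW
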